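import Pool.Agent.H.MP_f22ace_co.Defs

set_option autoImplicit false

namespace Pool.Agent.H.MP_f22ace_co

open Finset

variable {d k : ℕ}

def IsConv (V : Finset (Pt d k)) : Prop :=
  ∀ x ∈ V, emb x ∉ convexHull ℝ (emb '' ((V : Set (Pt d k)) \ {x}))

def Sp (V : Finset (Pt d k)) : AffineSubspace ℝ (Fin d → ℝ) :=
  affineSpan ℝ (emb '' (V : Set (Pt d k)))

theorem emb_inj : Function.Injective (emb : Pt d k → Fin d → ℝ) := by
  intro x y h
  funext i
  have := congrFun h i
  simp only [emb, Nat.cast_inj] at this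
  exact Fin.ext this

theorem IsConv.mono {V W : Finset (Pt d k)} (h : IsConv W) (hV : V ⊆ W) : IsConv V :=
  fun x hx hc => h x (hV hx) (convexHull_mono (Set.image_mono
    (Set.diff_subset_diff_left (coe_subset.2 hV))) hc)

theorem Sp_mono {V W : Finset (Pt d k)} (hV : V ⊆ W) : Sp V ≤ Sp W :=
  affineSpan_mono ℝ (Set.image_mono (coe_subset.2 hV))

theorem exists_basis (V : Finset (Pt d k)) : ∃ B ⊆ V, B.card ≤ d + 1 ∧ Sp B = Sp V := by
  classical
  obtain ⟨t, ht, hs, hi⟩ := exists_affineIndependent ℝ (Fin d → ℝ) (emb '' (V : Set (Pt d k)))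
  have himg : emb '' ((V.filter fun x => emb x ∈ t : Finset (Pt d k)) : Set (Pt d k)) = t := by
    ext y
    constructor
    · rintro ⟨x, hx, rfl⟩
      exact (mem_filter.1 hx).2
    · intro hy
      obtain ⟨x, hx, rfl⟩ := ht hy
      exact ⟨x, mem_filter.2 ⟨hx, hy⟩, rfl⟩
  refine ⟨V.filter fun x => emb x ∈ t, filter_subset _ _, ?_, ?_⟩
  · have hfin : t.Finite := himg ▸ (Finset.finite_toSet _).image _
    haveI := hfin.fintype
    have h1 := hi.card_le_finrank_succ
    have h2 : Module.finrank ℝ (vectorSpan ℝ (Set.range ((↑) : t → (Fin d → ℝ)))) ≤ d := by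
      refine (Submodule.finrank_le _).trans ?_
      simp
    have h3 : (V.filter fun x => emb x ∈ t).card = Fintype.card t := by
      rw [← Set.ncard_coe_finset, ← Set.ncard_image_of_injective _ emb_inj, himg,
        Set.ncard_eq_toFinset_card', Set.toFinset_card]
    rw [h3]
    exact h1.trans (Nat.succ_le_succ h2)
  · unfold Sp
    rw [himg, hs]

theorem adj_iff (P Q : Poly d k) : (Lam d k).Adj P Q ↔
    (∃ x, x ∉ P.1 ∧ Q.1 = insert x P.1) ∨ ∃ x, x ∉ Q.1 ∧ P.1 = insert x Q.1 := by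
  rw [Lam, SimpleGraph.fromRel_adj]
  refine ⟨fun h => h.2, fun h => ⟨?_, h⟩⟩
  rintro rfl
  rcases h with ⟨x, hx, h⟩ | ⟨x, hx, h⟩ <;> exact hx (h ▸ mem_insert_self _ _)

theorem deg_ge (P : Poly d k) : P.1.card ≤ ((Lam d k).neighborSet P).ncard + (d + 1) := by
  obtain ⟨B, hB, hc, hs⟩ := exists_basis P.1
  have h1 : (fun x => P.1.erase x) '' ((P.1 \ B : Finset (Pt d k)) : Set (Pt d k)) ⊆
      Subtype.val '' (Lam d k).neighborSet P := by
    rintro _ ⟨x, hx, rfl⟩
    have hx' := mem_sdiff.1 (mem_coe.1 hx)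
    have hv : IsVert (P.1.erase x) := by
      refine ⟨IsConv.mono P.2.1 (erase_subset _ _), ?_⟩
      have : Sp B ≤ Sp (P.1.erase x) :=
        Sp_mono fun y hy => mem_erase.2 ⟨fun h => hx'.2 (h ▸ hy), hB hy⟩
      rw [hs] at this
      exact top_le_iff.1 (le_trans P.2.2.ge this)
    refine ⟨⟨_, hv⟩, (adj_iff _ _).2 (Or.inr ⟨x, notMem_erase _ _, ?_⟩), rfl⟩
    exact (insert_erase hx'.1).symm
  have h2 := Set.ncard_le_ncard h1 (Set.toFinite _)
  rw [Set.ncard_image_of_injective _ Subtype.val_injective, Set.InjOn.ncard_image,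
    Set.ncard_coe_finset, card_sdiff_of_subset hB] at h2
  · omega
  · intro x hx y _ h
    exact (erase_inj P.1 (mem_sdiff.1 (mem_coe.1 hx)).1).1 h

theorem cut_le (x0 : Pt d k) (b : Prop) (T : Set (Poly d k)) (hT : ∀ P, P ∈ T ↔ (x0 ∈ P.1 ↔ b)) :
    cut (Lam d k) T ≤ T.ncard := by
  refine Set.ncard_le_ncard_of_injOn Prod.fst (fun p hp => hp.1) ?_ (Set.toFinite _)
  have key : ∀ P Q : Poly d k, P ∈ T → Q ∉ T → (Lam d k).Adj P Q →
      ∀ y, y ∈ Q.1 ↔ if y = x0 then ¬ b else y ∈ P.1 := by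
    intro P Q hP hQ h y
    rw [hT] at hP hQ
    split_ifs with hy
    · subst hy; tauto
    · rcases (adj_iff _ _).1 h with ⟨x, hx, h⟩ | ⟨x, hx, h⟩
      · have : x = x0 := by
          by_contra hne
          rw [h, mem_insert] at hQ
          have : ¬ x0 = x := fun h => hne h.symm
          tauto
        rw [h, mem_insert, this]; tauto
      · have : x = x0 := by
          by_contra hne
          rw [h, mem_insert] at hP
          have : ¬ x0 = x := fun h => hne h.symm
          tauto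
        rw [h, mem_insert, this]; tauto
  rintro ⟨P, Q⟩ ⟨h1, h2, h3⟩ ⟨P', Q'⟩ ⟨h1', h2', h3'⟩ h
  simp only at h
  subst h
  refine Prod.ext rfl (Subtype.ext ?_)
  ext y
  exact (key _ _ h1 h2 h3 y).trans (key _ _ h1' h2' h3' y).symm

theorem card_small {ι : Type} [Fintype ι] [DecidableEq ι] (hι : 1 ≤ Fintype.card ι) (m : ℕ) :
    (univ.filter fun V : Finset ι => V.card < m).card ≤ m * Fintype.card ι ^ m := by
  have h1 : (univ.filter fun V : Finset ι => V.card < m) ⊆
      (range m).biUnion fun i => powersetCard i univ := by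
    intro V hV
    exact mem_biUnion.2 ⟨V.card, mem_range.2 (mem_filter.1 hV).2,
      mem_powersetCard.2 ⟨subset_univ _, rfl⟩⟩
  refine (card_le_card h1).trans (card_biUnion_le.trans ?_)
  have : ∀ i ∈ range m, (powersetCard i (univ : Finset ι)).card ≤ Fintype.card ι ^ m := by
    intro i hi
    rw [card_powersetCard, card_univ]
    exact (Nat.choose_le_pow _ _).trans (Nat.pow_le_pow_right hι (mem_range.1 hi).le)
  simpa using sum_le_card_nsmul _ _ _ this

theorem vol_eq (T : Set (Poly d k)) :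
    vol (Lam d k) T = ∑ P ∈ (Set.toFinite T).toFinset, ((Lam d k).neighborSet P).ncard :=
  finsum_mem_eq_finite_toFinset_sum _ _

theorem vol_ge (M : ℕ) (T : Set (Poly d k)) :
    M * T.ncard ≤ vol (Lam d k) T + M * ((d + 1 + M) * ((k + 1) ^ d) ^ (d + 1 + M)) := by
  classical
  have h0 := card_small (ι := Pt d k) Fintype.card_pos (d + 1 + M)
  have hc : Fintype.card (Pt d k) = (k + 1) ^ d := by simp
  rw [hc] at h0
  rw [vol_eq, Set.ncard_eq_toFinset_card T (Set.toFinite T)]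
  set F := (Set.toFinite T).toFinset
  have h1 := card_filter_add_card_filter_not (s := F) fun P => P.1.card < d + 1 + M
  have h2 : (F.filter fun P => P.1.card < d + 1 + M).card ≤
      (univ.filter fun V : Finset (Pt d k) => V.card < d + 1 + M).card :=
    card_le_card_of_injOn Subtype.val
      (fun P hP => mem_coe.2 (mem_filter.2 ⟨mem_univ _, (mem_filter.1 (mem_coe.1 hP)).2⟩))
      Subtype.val_injective.injOn
  have h3 : (F.filter fun P => ¬ P.1.card < d + 1 + M).card * M ≤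
      ∑ P ∈ F, ((Lam d k).neighborSet P).ncard := by
    refine le_trans ?_ (sum_le_sum_of_subset (filter_subset (fun P => ¬ P.1.card < d + 1 + M) F))
    rw [← smul_eq_mul]
    refine card_nsmul_le_sum _ _ _ fun P hP => ?_
    have := deg_ge P
    have := (mem_filter.1 hP).2
    omega
  rw [← h1]
  nlinarith [Nat.mul_le_mul_left M (h2.trans h0)]

theorem vol_compl (T : Set (Poly d k)) :
    vol (Lam d k) T + vol (Lam d k) Tᶜ = vol (Lam d k) Set.univ := by
  unfold vol
  rw [← finsum_mem_union disjoint_compl_right (Set.toFinite _) (Set.toFinite _),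
    Set.union_compl_self]

theorem card_ge (x0 : Pt d k) (C : Finset (Pt d k)) (hC : IsConv C) (h0 : x0 ∈ C)
    (hs : Sp (C.erase x0) = ⊤) (b : Prop) (T : Set (Poly d k))
    (hT : ∀ P, P ∈ T ↔ (x0 ∈ P.1 ↔ b)) : 2 ^ (C.card - (d + 2)) ≤ T.ncard := by
  classical
  obtain ⟨B, hB, hc, hB2⟩ := exists_basis (C.erase x0)
  set D := C.erase x0 \ B with hD
  set E : Finset (Pt d k) := if b then insert x0 B else B with hE
  have hBE : B ⊆ E := by rw [hE]; split_ifs; exacts [subset_insert _ _, Subset.refl _]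
  have hEC : E ⊆ C := by
    have := hB.trans (erase_subset _ _)
    rw [hE]; split_ifs; exacts [insert_subset h0 this, this]
  have hx0B : x0 ∉ B := fun h => notMem_erase _ _ (hB h)
  have hx0E : x0 ∈ E ↔ b := by
    rw [hE]; split_ifs with hb <;> simp [hb, hx0B]
  have hDE : ∀ y ∈ D, y ∉ E := by
    intro y hy
    have h1 := mem_sdiff.1 hy
    have h2 := mem_erase.1 h1.1
    rw [hE]; split_ifs <;> simp [h1.2, h2.1]
  have h1 : (fun A => A ∪ E) '' ((D.powerset : Finset (Finset (Pt d k))) : Set _) ⊆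
      Subtype.val '' T := by
    rintro _ ⟨A, hA, rfl⟩
    have hA' : A ⊆ D := mem_powerset.1 (mem_coe.1 hA)
    have hv : IsVert (A ∪ E) := by
      refine ⟨hC.mono (union_subset (hA'.trans (sdiff_subset.trans (erase_subset _ _))) hEC), ?_⟩
      have : Sp B ≤ Sp (A ∪ E) := Sp_mono (hBE.trans subset_union_right)
      rw [hB2, hs] at this
      exact top_le_iff.1 this
    refine ⟨⟨_, hv⟩, (hT _).2 ?_, rfl⟩
    have : x0 ∉ A := fun h => notMem_erase _ _ (mem_sdiff.1 (hA' h)).1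
    simp [this, hx0E]
  have h2 := Set.ncard_le_ncard h1 (Set.toFinite _)
  rw [Set.ncard_image_of_injective _ Subtype.val_injective, Set.InjOn.ncard_image,
    Set.ncard_coe_finset, card_powerset, hD, card_sdiff_of_subset hB, card_erase_of_mem h0] at h2
  · exact (Nat.pow_le_pow_right (by norm_num) (by omega)).trans h2
  · intro A hA A' hA' h
    have hA1 : A ⊆ D := mem_powerset.1 (mem_coe.1 hA)
    have hA2 : A' ⊆ D := mem_powerset.1 (mem_coe.1 hA')
    ext y
    have h3 : y ∈ A ∪ E ↔ y ∈ A' ∪ E := by simp only at h; rw [h]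
    simp only [mem_union] at h3
    have := hDE y
    have := @hA1 y
    have := @hA2 y
    tauto

theorem main (ε : ℝ) (M : ℕ) (hM : 2 < ε * M) (x0 : Pt d k) (C : Finset (Pt d k)) (hC : IsConv C)
    (h0 : x0 ∈ C) (hs : Sp (C.erase x0) = ⊤)
    (hbig : 2 * ((d + 1 + M) * ((k + 1) ^ d) ^ (d + 1 + M)) ≤ 2 ^ (C.card - (d + 2))) :
    ∃ S : Set (Poly d k), S.Nonempty ∧ 2 * vol (Lam d k) S ≤ vol (Lam d k) Set.univ ∧
      (cut (Lam d k) S : ℝ) < ε * vol (Lam d k) S := by
  obtain ⟨b, T, hT, hv⟩ : ∃ (b : Prop) (T : Set (Poly d k)), (∀ P, P ∈ T ↔ (x0 ∈ P.1 ↔ b)) ∧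
      2 * vol (Lam d k) T ≤ vol (Lam d k) Set.univ := by
    have := vol_compl {P : Poly d k | x0 ∈ P.1}
    rcases le_total (vol (Lam d k) {P : Poly d k | x0 ∈ P.1})
      (vol (Lam d k) {P : Poly d k | x0 ∈ P.1}ᶜ) with h | h
    · exact ⟨True, {P : Poly d k | x0 ∈ P.1}, by simp, by omega⟩
    · exact ⟨False, {P : Poly d k | x0 ∈ P.1}ᶜ, by simp, by omega⟩
  have h1 := card_ge x0 C hC h0 hs b T hT
  have h2 := cut_le x0 b T hT
  have h3 := vol_ge M T
  have h4 : 0 < T.ncard := lt_of_lt_of_le (by positivity) h1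
  have h5 : M * T.ncard ≤ 2 * vol (Lam d k) T := by
    nlinarith [Nat.mul_le_mul_left M (hbig.trans h1)]
  refine ⟨T, Set.nonempty_of_ncard_ne_zero h4.ne', hv, ?_⟩
  have h2' : (cut (Lam d k) T : ℝ) ≤ T.ncard := by exact_mod_cast h2
  have h4' : (0 : ℝ) < T.ncard := by exact_mod_cast h4
  have h5' : (M : ℝ) * T.ncard ≤ 2 * vol (Lam d k) T := by exact_mod_cast h5
  have hε : 0 < ε := by
    by_contra h
    have : (0 : ℝ) ≤ M := by positivity
    nlinarith
  nlinarith [mul_le_mul_of_nonneg_left h5' hε.le]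

theorem conv_of (C : Finset (Pt d k))
    (h : ∀ x ∈ C, ∃ a : Fin d → ℝ, ∀ y ∈ C, y ≠ x → ∑ i, a i * emb y i < ∑ i, a i * emb x i) :
    IsConv C := by
  intro x hx hc
  obtain ⟨a, ha⟩ := h x hx
  have hl : IsLinearMap ℝ fun y : Fin d → ℝ => ∑ i, a i * y i :=
    ⟨fun y z => by simp [mul_add, sum_add_distrib], fun c y => by
      simp [mul_sum, mul_left_comm]⟩
  have := convexHull_min (s := emb '' ((C : Set (Pt d k)) \ {x}))
    (by rintro _ ⟨y, hy, rfl⟩; exact ha y hy.1 hy.2)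
    (convex_halfSpace_lt hl (∑ i, a i * emb x i)) hc
  exact lt_irrefl (∑ i, a i * emb x i) this

theorem sp_top (V : Finset (Pt d k)) (hV : V.Nonempty)
    (h : ∀ i, Pi.single i (1 : ℝ) ∈ vectorSpan ℝ (emb '' (V : Set (Pt d k)))) : Sp V = ⊤ := by
  unfold Sp
  rw [AffineSubspace.affineSpan_eq_top_iff_vectorSpan_eq_top_of_nonempty ℝ _ _
    ((coe_nonempty.2 hV).image _), eq_top_iff]
  intro v _
  rw [← Finset.univ_sum_single v]
  refine Submodule.sum_mem _ fun i _ => ?_
  have : Pi.single i (v i) = v i • (Pi.single i (1 : ℝ) : Fin d → ℝ) := by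
    rw [← Pi.single_smul, smul_eq_mul, mul_one]
  rw [this]
  exact Submodule.smul_mem _ _ (h i)

theorem diff_mem (V : Finset (Pt d k)) {x y : Pt d k} (hx : x ∈ V) (hy : y ∈ V) :
    emb x - emb y ∈ vectorSpan ℝ (emb '' (V : Set (Pt d k))) :=
  vsub_mem_vectorSpan ℝ ⟨x, hx, rfl⟩ ⟨y, hy, rfl⟩

theorem ev_pow (A D : ℕ) : ∀ᶠ n : ℕ in Filter.atTop, A * n ^ D ≤ 2 ^ n := by
  have h := tendsto_pow_const_div_const_pow_of_one_lt D (by norm_num : (1 : ℝ) < 2)
  filter_upwards [h.eventually_lt_const (show (0 : ℝ) < 1 / (A + 1) by positivity)] with n hn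
  rw [div_lt_div_iff₀ (by positivity) (by positivity)] at hn
  have : (A : ℝ) * n ^ D ≤ 2 ^ n := by nlinarith [pow_nonneg (Nat.cast_nonneg n : (0 : ℝ) ≤ n) D]
  exact_mod_cast this

end Pool.Agent.H.MP_f22ace_co
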