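import Mathlib

set_option autoImplicit false

namespace Pool.Agent.H.MP_f22ace_co

/-- Lattice points of the cube `[0,k]^d`. -/
abbrev Pt (d k : ℕ) : Type := Fin d → Fin (k + 1)

/-- A lattice point as a point of `ℝ^d`. -/
def emb {d k : ℕ} (x : Pt d k) : Fin d → ℝ := fun i => ((x i : ℕ) : ℝ)

/-- `V` is the vertex set of a `d`-dimensional polytope: no point of `V` lies in the convex hull of
the others, and `V` affinely spans `ℝ^d`. -/
def IsVert {d k : ℕ} (V : Finset (Pt d k)) : Prop :=
  (∀ x ∈ V, emb x ∉ convexHull ℝ (emb '' ((V : Set (Pt d k)) \ {x}))) ∧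
    affineSpan ℝ (emb '' (V : Set (Pt d k))) = ⊤

/-- `d`-dimensional lattice polytopes in `[0,k]^d`, given by their vertex sets. -/
abbrev Poly (d k : ℕ) : Type := {V : Finset (Pt d k) // IsVert V}

/-- The graph `Λ(d,k)`: adjacent when one vertex set is the other plus one point. -/
def Lam (d k : ℕ) : SimpleGraph (Poly d k) :=
  SimpleGraph.fromRel fun P Q => ∃ x, x ∉ P.1 ∧ Q.1 = insert x P.1

/-- Number of edges between `S` and its complement. -/
noncomputable def cut {α : Type} (G : SimpleGraph α) (S : Set α) : ℕ :=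
  {p : α × α | p.1 ∈ S ∧ p.2 ∉ S ∧ G.Adj p.1 p.2}.ncard

/-- Sum of the degrees of the vertices in `S`. -/
noncomputable def vol {α : Type} (G : SimpleGraph α) (S : Set α) : ℕ :=
  ∑ᶠ v ∈ S, (G.neighborSet v).ncard

end Pool.Agent.H.MP_f22ace_co
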