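import Mathlib

set_option autoImplicit false

namespace Pool.Agent.H.MP_f22ace_co

open Finset

variable {ι : Type} [DecidableEq ι]

def flp (A : Finset ι) (i : ι) : Finset ι := if i ∈ A then A.erase i else insert i A

def bd (s : Finset ι) (F : Finset (Finset ι)) : ℕ :=
  ∑ i ∈ s, (F.filter fun A => flp A i ∉ F).card

theorem mem_flp (A : Finset ι) (i y : ι) : y ∈ flp A i ↔ if y = i then i ∉ A else y ∈ A := by
  unfold flp
  split_ifs with h1 h2 h2 <;> simp_all

theorem ent0 (a b : ℝ) (hb : 0 ≤ b) (hab : b ≤ a) :
    2 * b * Real.log 2 + a * Real.log a + b * Real.log b ≤ (a + b) * Real.log (a + b) := by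
  rcases hb.eq_or_lt with rfl | hb
  · simp
  have ha : 0 < a := by linarith
  have h1 : Real.log (2 * b) ≤ Real.log (a + b) := Real.log_le_log (by linarith) (by linarith)
  rw [Real.log_mul (by norm_num) hb.ne'] at h1
  have h2 : (1 + 1 : ℝ) ^ (b / a) ≤ 1 + b / a * 1 :=
    rpow_one_add_le_one_add_mul_self (by norm_num) (by positivity) ((div_le_one ha).2 hab)
  have h3 := Real.log_le_log (by positivity) h2
  rw [Real.log_rpow (by norm_num), show (1 + b / a * 1) = (a + b) / a by field_simp,
    Real.log_div (by linarith) ha.ne', show (1 + 1 : ℝ) = 2 by norm_num] at h3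
  have h4 : b * Real.log 2 ≤ a * (Real.log (a + b) - Real.log a) := by
    have := mul_le_mul_of_nonneg_left h3 ha.le
    rwa [← mul_assoc, mul_div_cancel₀ _ ha.ne'] at this
  nlinarith [mul_le_mul_of_nonneg_left h1 hb.le]

theorem ent (a b c : ℝ) (ha : 0 ≤ a) (hb : 0 ≤ b) (h1 : a ≤ c + b) (h2 : b ≤ c + a) :
    (a + b - c) * Real.log 2 + a * Real.log a + b * Real.log b ≤ (a + b) * Real.log (a + b) := by
  have hl : 0 < Real.log 2 := Real.log_pos (by norm_num)
  rcases le_total b a with h | h
  · nlinarith [ent0 a b hb h]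
  · have := ent0 b a ha h
    rw [add_comm b a] at this
    nlinarith

theorem harper (s : Finset ι) : ∀ F : Finset (Finset ι), (∀ A ∈ F, A ⊆ s) →
    (F.card : ℝ) * (s.card * Real.log 2 - Real.log F.card) ≤ Real.log 2 * bd s F := by
  induction s using Finset.induction_on with
  | empty =>
    intro F hF
    have : F.card ≤ 1 := card_le_one.2 fun A hA B hB => by
      rw [subset_empty.1 (hF A hA), subset_empty.1 (hF B hB)]
    rcases (by omega : F.card = 0 ∨ F.card = 1) with h | h <;> simp [h, bd]
  | insert a s has ih =>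
    intro F hF
    have h0 := ih (F.nonMemberSubfamily a) fun A hA => by
      rw [mem_nonMemberSubfamily] at hA
      exact (subset_insert_iff_of_notMem hA.2).1 (hF A hA.1)
    have h1 := ih (F.memberSubfamily a) fun A hA => by
      rw [mem_memberSubfamily] at hA
      exact (subset_insert_iff_of_notMem hA.2).1 ((subset_insert _ _).trans (hF _ hA.1))
    have hc := card_memberSubfamily_add_card_nonMemberSubfamily a F
    have hs : ∀ i ∈ s, ((F.nonMemberSubfamily a).filter
        fun A => flp A i ∉ F.nonMemberSubfamily a).card +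
        ((F.memberSubfamily a).filter fun A => flp A i ∉ F.memberSubfamily a).card ≤
        (F.filter fun A => flp A i ∉ F).card := by
      intro i hi
      have hia : a ≠ i := fun h => has (h ▸ hi)
      rw [← card_memberSubfamily_add_card_nonMemberSubfamily a (F.filter _), add_comm]
      refine add_le_add (card_le_card fun A hA => ?_) (card_le_card fun A hA => ?_)
      · simp only [mem_filter, mem_memberSubfamily] at hA ⊢
        refine ⟨⟨hA.1.1, fun h => hA.2 ⟨?_, ?_⟩⟩, hA.1.2⟩
        · have e : insert a (flp A i) = flp (insert a A) i := by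
            ext y
            simp only [mem_insert, mem_flp]
            by_cases h1 : y = i
            · subst h1; simp [hia.symm]
            · simp [h1]
          rwa [e]
        · simp [mem_flp, hia, hA.1.2]
      · simp only [mem_filter, mem_nonMemberSubfamily] at hA ⊢
        refine ⟨⟨hA.1.1, fun h => hA.2 ⟨h, ?_⟩⟩, hA.1.2⟩
        simp [mem_flp, hia, hA.1.2]
    have hx : (F.memberSubfamily a \ F.nonMemberSubfamily a).card +
        (F.nonMemberSubfamily a \ F.memberSubfamily a).card ≤
        (F.filter fun A => flp A a ∉ F).card := by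
      rw [← card_memberSubfamily_add_card_nonMemberSubfamily a (F.filter _)]
      refine add_le_add (card_le_card fun A hA => ?_) (card_le_card fun A hA => ?_)
      · simp only [mem_filter, mem_memberSubfamily, mem_nonMemberSubfamily, mem_sdiff] at hA ⊢
        refine ⟨⟨hA.1.1, fun h => hA.2 ⟨?_, hA.1.2⟩⟩, hA.1.2⟩
        rwa [flp, if_pos (mem_insert_self _ _), erase_insert hA.1.2] at h
      · simp only [mem_filter, mem_memberSubfamily, mem_nonMemberSubfamily, mem_sdiff] at hA ⊢
        refine ⟨⟨hA.1.1, fun h => hA.2 ⟨?_, hA.1.2⟩⟩, hA.1.2⟩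
        rwa [flp, if_neg hA.1.2] at h
    have e1 := le_card_sdiff (F.nonMemberSubfamily a) (F.memberSubfamily a)
    have e2 := le_card_sdiff (F.memberSubfamily a) (F.nonMemberSubfamily a)
    have hb : (F.filter fun A => flp A a ∉ F).card + (bd s (F.nonMemberSubfamily a) +
        bd s (F.memberSubfamily a)) ≤ bd (insert a s) F := by
      simp only [bd]
      rw [sum_insert has, ← sum_add_distrib]
      exact Nat.add_le_add_left (sum_le_sum hs) _
    have hl : 0 < Real.log 2 := Real.log_pos (by norm_num)
    have k := ent (F.memberSubfamily a).card (F.nonMemberSubfamily a).card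
      (F.filter fun A => flp A a ∉ F).card (by positivity) (by positivity)
      (by exact_mod_cast (by omega)) (by exact_mod_cast (by omega))
    have hb' : ((F.filter fun A => flp A a ∉ F).card : ℝ) + (bd s (F.nonMemberSubfamily a) +
        bd s (F.memberSubfamily a)) ≤ bd (insert a s) F := by exact_mod_cast hb
    rw [card_insert_of_notMem has, ← hc]
    push_cast
    nlinarith [mul_le_mul_of_nonneg_left hb' hl.le]

theorem harper' (s : Finset ι) (F : Finset (Finset ι)) (hF : ∀ A ∈ F, A ⊆ s) (t : ℕ)
    (h : F.card * 2 ^ t ≤ 2 ^ s.card) : F.card * t ≤ bd s F := by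
  have h1 := harper s F hF
  rcases Nat.eq_zero_or_pos F.card with h0 | h0
  · simp [h0]
  have hl : 0 < Real.log 2 := Real.log_pos (by norm_num)
  have h0' : (0 : ℝ) < F.card := by exact_mod_cast h0
  have h2 : (F.card : ℝ) * 2 ^ t ≤ 2 ^ s.card := by exact_mod_cast h
  have h3 := Real.log_le_log (by positivity) h2
  rw [Real.log_mul h0'.ne' (by positivity), Real.log_pow, Real.log_pow] at h3
  have h4 : Real.log 2 * (F.card * t) ≤ Real.log 2 * bd s F := by
    nlinarith [mul_le_mul_of_nonneg_left h3 h0'.le]
  exact_mod_cast le_of_mul_le_mul_left h4 hl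

end Pool.Agent.H.MP_f22ace_co
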